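import Pool.Agent.H47.UG.Lat

set_option autoImplicit false

open MvPolynomial

namespace Pool.Agent.H47.UG.FF

variable {K : Type} [Field K] {n d : ℕ} {F : HP K n} (T : FF d F)

/-- PATCH, from `u_mem` and `smoothA`. -/
theorem patch_of {V : Type} [AddCommGroup V] [Module T.L V] [Module K V] [IsScalarTower K T.L V]
    (i : Fin (n + 2)) (hu : ∀ j, T.u i j ∈ T.A i)
    (hs : ∃ c : Fin (n + 2) → T.L, (∀ j, c j ∈ T.A i) ∧ c i = 0 ∧ ∑ j, c j * T.u i j = 1)
    (M : Submodule K V) (hM : ∀ a ∈ T.A i, ∀ v ∈ M, a • v ∈ M) (v : V)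
    (h : ∀ j, j ≠ i → ∃ N : ℕ, T.u i j ^ N • v ∈ M) : v ∈ M := by
  classical
  obtain ⟨c, hc, hci, hsum⟩ := hs
  choose! N hN using h
  let I : Ideal (T.A i) :=
    { carrier := {a | (a : T.L) • v ∈ M}
      add_mem' := fun {a b} ha hb => by
        change ((a + b : T.A i) : T.L) • v ∈ M
        rw [Subalgebra.coe_add, add_smul]
        exact M.add_mem ha hb
      zero_mem' := by
        change ((0 : T.A i) : T.L) • v ∈ M
        rw [Subalgebra.coe_zero, zero_smul]
        exact M.zero_mem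
      smul_mem' := fun a b hb => by
        change ((a • b : T.A i) : T.L) • v ∈ M
        rw [smul_eq_mul, Subalgebra.coe_mul, mul_smul]
        exact hM _ a.2 _ hb }
  let y : Fin (n + 2) → T.A i := fun j => if j = i then 0 else ⟨T.u i j, hu j⟩
  have h1 : Ideal.span (Set.range y) = ⊤ := by
    rw [Ideal.eq_top_iff_one]
    have h2 : (1 : T.A i) = ∑ j, (⟨c j, hc j⟩ : T.A i) * y j := by
      apply Subtype.ext
      rw [Subalgebra.coe_one, ← hsum, AddSubmonoidClass.coe_finsetSum]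
      refine Finset.sum_congr rfl fun j _ => ?_
      by_cases hj : j = i
      · subst hj; simp [y, hci]
      · simp [y, hj]
    rw [h2]
    exact Ideal.sum_mem _ fun j _ => Ideal.mul_mem_left _ _ (Ideal.subset_span ⟨j, rfl⟩)
  have h3 := Ideal.span_pow_eq_top (Set.range y) h1 (∑ j, N j + 1)
  have h4 : Ideal.span ((fun x => x ^ (∑ j, N j + 1)) '' Set.range y) ≤ I := by
    rw [Ideal.span_le]
    rintro _ ⟨_, ⟨j, rfl⟩, rfl⟩
    change ((y j ^ (∑ j, N j + 1) : T.A i) : T.L) • v ∈ M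
    by_cases hj : j = i
    · simp [y, hj]
    · have h5 : N j ≤ ∑ j, N j :=
        Finset.single_le_sum (f := fun j => N j) (fun _ _ => Nat.zero_le _) (Finset.mem_univ _)
      obtain ⟨t, ht⟩ : ∃ t, ∑ j, N j + 1 = N j + t := Nat.exists_eq_add_of_le (h5.trans (Nat.le_succ _))
      rw [ht, add_comm, pow_add, Subalgebra.coe_mul, mul_smul]
      refine hM _ (y j ^ t).2 _ ?_
      simpa [y, hj] using hN j hj
  rw [h3] at h4
  have h6 : (1 : T.A i) ∈ I := h4 Submodule.mem_top
  have h7 : ((1 : T.A i) : T.L) • v ∈ M := h6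
  rwa [Subalgebra.coe_one, one_smul] at h7

end Pool.Agent.H47.UG.FF
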