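import Pool.Agent.H57.UGB.Api

/-!
# Block B, VSP: the vertical fields span
-/

set_option autoImplicit false

open MvPolynomial

namespace Pool.Agent.H57.UGB

section vsp

variable {n k : ℕ} {R : Type} [CommRing R] [Algebra ℂ R]

/-- the monomials at the universal jet -/
theorem pt_mon (a : (Fin (n + 2) →₀ ℕ) → R) (y : Fin (n + 2) → PowerSeries R) (α : Fin (n + 2) →₀ ℕ)
    {s : ℕ} (hs : s ≤ k) :
    pt a y (PowerSeries.coeff s (∏ j, uy n k j ^ α j)) = PowerSeries.coeff s (∏ j, y j ^ α j) := by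
  have h2 : pt a y (PowerSeries.coeff s (∏ j, uy n k j ^ α j)) = PowerSeries.coeff s
      (PowerSeries.map ((pt a y : JR n k →ₐ[ℂ] R) : JR n k →+* R) (∏ j, uy n k j ^ α j)) := by
    rw [PowerSeries.coeff_map]
    rfl
  rw [h2, map_prod]
  have h3 : Eqk k (∏ j, PowerSeries.map ((pt a y : JR n k →ₐ[ℂ] R) : JR n k →+* R) (uy n k j ^ α j))
      (∏ j, y j ^ α j) := by
    refine Eqk.prod fun j _ => ?_
    rw [map_pow]
    exact Eqk.pow (fun s hs => coeff_map_uy a y j hs) _
  exact h3 s hs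

/-- `V` kills all coefficients of `f` -/
def Kil (V : Derivation ℂ (JR n k) (JR n k)) (f : PowerSeries (JR n k)) : Prop :=
  ∀ s, V (PowerSeries.coeff s f) = 0

theorem Kil.mul {V : Derivation ℂ (JR n k) (JR n k)} {f g : PowerSeries (JR n k)} (hf : Kil V f)
    (hg : Kil V g) : Kil V (f * g) := by
  intro s
  rw [PowerSeries.coeff_mul, map_sum]
  refine Finset.sum_eq_zero fun x _ => ?_
  rw [Derivation.leibniz, hf, hg, smul_zero, smul_zero, add_zero]

theorem Kil.one {V : Derivation ℂ (JR n k) (JR n k)} : Kil V 1 := by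
  intro s
  rw [PowerSeries.coeff_one]
  split_ifs
  · exact V.map_one_eq_zero
  · exact map_zero V

theorem Kil.pow {V : Derivation ℂ (JR n k) (JR n k)} {f : PowerSeries (JR n k)} (hf : Kil V f) (r : ℕ) :
    Kil V (f ^ r) := by
  induction r with
  | zero => rw [pow_zero]; exact Kil.one
  | succ r ih => rw [pow_succ]; exact ih.mul hf

theorem Kil.prod {ι : Type} {V : Derivation ℂ (JR n k) (JR n k)} {f : ι → PowerSeries (JR n k)}
    (hf : ∀ i, Kil V (f i)) (t : Finset ι) : Kil V (∏ i ∈ t, f i) := by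
  classical
  induction t using Finset.induction_on with
  | empty => rw [Finset.prod_empty]; exact Kil.one
  | insert a t ha ih => rw [Finset.prod_insert ha]; exact (hf a).mul ih

theorem Kil.uy {V : Derivation ℂ (JR n k) (JR n k)} (hV : ∀ v, V (X (Sum.inr v)) = 0) (j : Fin (n + 2)) :
    Kil V (uy n k j) := by
  intro s
  by_cases hs : s ≤ k
  · rw [coeff_uy_of_le j hs]
    exact hV _
  · rw [coeff_uy_of_lt j (by omega)]
    exact map_zero V

/-- value of a vertical field on the equations -/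
theorem pt_vert (d : ℕ) {s : ℕ} (hs : s ≤ k) (a : (Fin (n + 2) →₀ ℕ) → R)
    (y : Fin (n + 2) → PowerSeries R) (V : Derivation ℂ (JR n k) (JR n k))
    (hV : ∀ v, V (X (Sum.inr v)) = 0) :
    pt a y (V (Fc n d k s)) =
      PowerSeries.coeff s (aeval y (gen n d fun α => pt a y (V (X (Sum.inl α))))) := by
  unfold Fc
  rw [aeval_gen, aeval_gen, map_sum, map_sum, map_sum, map_sum]
  refine Finset.sum_congr rfl fun α _ => ?_
  rw [PowerSeries.coeff_C_mul, PowerSeries.coeff_C_mul, Derivation.leibniz,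
    (Kil.prod (fun j => (Kil.uy hV j).pow (α j)) Finset.univ) s, smul_zero, zero_add, smul_eq_mul, map_mul,
    pt_mon a y α hs, mul_comm]
  rfl

/-- the span of the values of the vertical fields -/
def VM (n d k : ℕ) (a : (Fin (n + 2) →₀ ℕ) → R) (y : Fin (n + 2) → PowerSeries R) :
    Submodule R ((Fin (n + 2) →₀ ℕ) → R) :=
  Submodule.span R {g | ∃ V : Derivation ℂ (JR n k) (JR n k), IsFld n d k V ∧
    (∀ v, V (X (Sum.inr v)) = 0) ∧ g = fun α => pt a y (V (X (Sum.inl α)))}

/-- elements of the span as lists -/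
theorem exists_list {d : ℕ} (a : (Fin (n + 2) →₀ ℕ) → R) (y : Fin (n + 2) → PowerSeries R)
    {g : (Fin (n + 2) →₀ ℕ) → R} (hg : g ∈ VM n d k a y) :
    ∃ w : List (R × Derivation ℂ (JR n k) (JR n k)),
      (∀ p ∈ w, IsFld n d k p.2 ∧ ∀ v, p.2 (X (Sum.inr v)) = 0) ∧
      ∀ α, g α = (w.map fun p => p.1 * pt a y (p.2 (X (Sum.inl α)))).sum := by
  unfold VM at hg
  induction hg using Submodule.span_induction with
  | mem x hx =>
    obtain ⟨V, h1, h2, rfl⟩ := hx
    refine ⟨[(1, V)], fun p hp => ?_, fun α => by simp⟩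
    rw [List.mem_singleton] at hp
    subst hp
    exact ⟨h1, h2⟩
  | zero => exact ⟨[], by simp, fun α => by simp⟩
  | add x y _ _ hx hy =>
    obtain ⟨w, h1, h2⟩ := hx
    obtain ⟨w', h1', h2'⟩ := hy
    refine ⟨w ++ w', fun p hp => ?_, fun α => ?_⟩
    · rcases List.mem_append.1 hp with h | h
      · exact h1 p h
      · exact h1' p h
    · rw [Pi.add_apply, h2, h2', List.map_append, List.sum_append]
  | smul c x _ hx =>
    obtain ⟨w, h1, h2⟩ := hx
    refine ⟨w.map fun p => (c * p.1, p.2), fun p hp => ?_, fun α => ?_⟩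
    · obtain ⟨q, hq, rfl⟩ := List.mem_map.1 hp
      exact h1 q hq
    · rw [Pi.smul_apply, h2, smul_eq_mul, List.map_map, ← List.sum_map_mul_left]
      congr 1
      refine List.map_congr_left fun p _ => ?_
      simp only [Function.comp_apply]
      ring

/-- the exponent of `x_0^{d-r} x_l^r` -/
noncomputable def br (n d : ℕ) (l : Fin (n + 2)) (r : ℕ) : Fin (n + 2) →₀ ℕ :=
  Finsupp.single 0 (d - r) + Finsupp.single l r

open scoped Classical in
/-- modulo vertical fields and powers of `y₁`, `g` is a combination of `x_l^r`, `r ≤ k` -/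
def Gd (d k : ℕ) (l : Fin (n + 2)) (a : (Fin (n + 2) →₀ ℕ) → R) (y : Fin (n + 2) → PowerSeries R)
    (g : (Fin (n + 2) →₀ ℕ) → R) : Prop :=
  ∃ (N : ℕ) (c : Fin (k + 1) → R),
    PowerSeries.coeff 1 (y l) ^ N • g - ∑ r, c r • (Pi.single (br n d l r) 1 : (Fin (n + 2) →₀ ℕ) → R) ∈
      VM n d k a y

theorem Gd.smul {d : ℕ} {l : Fin (n + 2)} {a : (Fin (n + 2) →₀ ℕ) → R} {y : Fin (n + 2) → PowerSeries R}
    {g : (Fin (n + 2) →₀ ℕ) → R} (h : Gd d k l a y g) (z : R) : Gd d k l a y (z • g) := by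
  obtain ⟨N, c, h⟩ := h
  refine ⟨N, fun r => z * c r, ?_⟩
  have h1 := (VM n d k a y).smul_mem z h
  convert h1 using 1
  rw [smul_sub, Finset.smul_sum, smul_comm]
  simp only [mul_smul]

theorem Gd.raise {d : ℕ} {l : Fin (n + 2)} {a : (Fin (n + 2) →₀ ℕ) → R} {y : Fin (n + 2) → PowerSeries R}
    {g : (Fin (n + 2) →₀ ℕ) → R} (h : Gd d k l a y g) : ∃ N : ℕ, ∀ M ≥ N, ∃ c : Fin (k + 1) → R,
    PowerSeries.coeff 1 (y l) ^ M • g -
      ∑ r, c r • (open scoped Classical in Pi.single (br n d l r) 1 : (Fin (n + 2) →₀ ℕ) → R) ∈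
      VM n d k a y := by
  obtain ⟨N, c, h⟩ := h
  refine ⟨N, fun M hM => ⟨fun r => PowerSeries.coeff 1 (y l) ^ (M - N) * c r, ?_⟩⟩
  have h1 := (VM n d k a y).smul_mem (PowerSeries.coeff 1 (y l) ^ (M - N)) h
  convert h1 using 1
  rw [smul_sub, Finset.smul_sum, smul_smul, ← pow_add, Nat.sub_add_cancel hM]
  simp only [mul_smul]

theorem Gd.add {d : ℕ} {l : Fin (n + 2)} {a : (Fin (n + 2) →₀ ℕ) → R} {y : Fin (n + 2) → PowerSeries R}
    {g g' : (Fin (n + 2) →₀ ℕ) → R} (h : Gd d k l a y g) (h' : Gd d k l a y g') :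
    Gd d k l a y (g + g') := by
  obtain ⟨N, h⟩ := h.raise
  obtain ⟨N', h'⟩ := h'.raise
  obtain ⟨c, h1⟩ := h (max N N') (le_max_left _ _)
  obtain ⟨c', h2⟩ := h' (max N N') (le_max_right _ _)
  refine ⟨max N N', fun r => c r + c' r, ?_⟩
  have h3 := (VM n d k a y).add_mem h1 h2
  convert h3 using 1
  rw [smul_add]
  simp only [add_smul, Finset.sum_add_distrib]
  abel

theorem Gd.of_mem {d : ℕ} {l : Fin (n + 2)} {a : (Fin (n + 2) →₀ ℕ) → R} {y : Fin (n + 2) → PowerSeries R}
    {g : (Fin (n + 2) →₀ ℕ) → R} (h : g ∈ VM n d k a y) : Gd d k l a y g :=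
  ⟨0, 0, by simpa using h⟩

theorem Gd.sum {ι : Type} {d : ℕ} {l : Fin (n + 2)} {a : (Fin (n + 2) →₀ ℕ) → R}
    {y : Fin (n + 2) → PowerSeries R} (t : Finset ι) {g : ι → (Fin (n + 2) →₀ ℕ) → R}
    (h : ∀ i ∈ t, Gd d k l a y (g i)) : Gd d k l a y (∑ i ∈ t, g i) := by
  classical
  induction t using Finset.induction_on with
  | empty => rw [Finset.sum_empty]; exact Gd.of_mem (Submodule.zero_mem _)
  | insert a t ha ih =>
    rw [Finset.sum_insert ha]
    exact (h a (Finset.mem_insert_self _ _)).add (ih fun i hi => h i (Finset.mem_insert_of_mem hi))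

theorem Gd.of_pow {d : ℕ} {l : Fin (n + 2)} {a : (Fin (n + 2) →₀ ℕ) → R}
    {y : Fin (n + 2) → PowerSeries R} {g : (Fin (n + 2) →₀ ℕ) → R} {M : ℕ}
    (h : Gd d k l a y (PowerSeries.coeff 1 (y l) ^ M • g)) : Gd d k l a y g := by
  obtain ⟨N, c, h⟩ := h
  refine ⟨N + M, c, ?_⟩
  rwa [pow_add, mul_smul]

/-- elimination of one coefficient by a vertical field -/
theorem Gd.elim {d : ℕ} {l : Fin (n + 2)} {a : (Fin (n + 2) →₀ ℕ) → R}
    {y : Fin (n + 2) → PowerSeries R} (V : Derivation ℂ (JR n k) (JR n k)) (hV : IsFld n d k V)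
    (hv : ∀ v, V (X (Sum.inr v)) = 0) (α : Fin (n + 2) →₀ ℕ) (M : ℕ)
    (hα : pt a y (V (X (Sum.inl α))) = PowerSeries.coeff 1 (y l) ^ M) (t : Finset (Fin (n + 2) →₀ ℕ))
    (ht : ∀ β, β ≠ α → β ∉ t → V (X (Sum.inl β)) = 0)
    (hG : ∀ β ∈ t, β ≠ α → V (X (Sum.inl β)) ≠ 0 →
      Gd d k l a y (open scoped Classical in Pi.single β 1)) :
    Gd d k l a y (open scoped Classical in Pi.single α 1) := by
  classical
  refine Gd.of_pow (M := M) ?_
  have h1 : PowerSeries.coeff 1 (y l) ^ M • (Pi.single α 1 : (Fin (n + 2) →₀ ℕ) → R) =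
      (fun β => pt a y (V (X (Sum.inl β)))) +
        ∑ β ∈ t.erase α, (-pt a y (V (X (Sum.inl β)))) • (Pi.single β 1 : (Fin (n + 2) →₀ ℕ) → R) := by
    funext γ
    rw [Pi.smul_apply, Pi.add_apply, Finset.sum_apply, Pi.single_apply]
    simp only [Pi.smul_apply, Pi.single_apply, smul_eq_mul, mul_ite, mul_one, mul_zero]
    rw [Finset.sum_ite_eq]
    by_cases hγ : γ = α
    · subst hγ
      rw [if_pos rfl, if_neg (Finset.notMem_erase _ _), hα, add_zero]
    · rw [if_neg hγ]
      by_cases hγt : γ ∈ t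
      · rw [if_pos (Finset.mem_erase.2 ⟨hγ, hγt⟩), add_neg_cancel]
      · rw [if_neg (fun h => hγt (Finset.mem_of_mem_erase h)), ht γ hγ hγt, map_zero, add_zero]
  rw [h1]
  refine Gd.add (Gd.of_mem (Submodule.subset_span ⟨V, hV, hv, rfl⟩)) (Gd.sum _ fun β hβ => ?_)
  rw [Finset.mem_erase] at hβ
  by_cases h2 : V (X (Sum.inl β)) = 0
  · rw [h2, map_zero, neg_zero, zero_smul]
    exact Gd.of_mem (Submodule.zero_mem _)
  · have h3 := (hG β hβ.2 hβ.1 h2).smul (-pt a y (V (X (Sum.inl β))))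
    convert h3 using 3

/-- statement of `fld2` for given data -/
def Fld2 (n d k : ℕ) (l : Fin (n + 2)) : Prop :=
  ∀ α ∈ (Finset.univ : Finset (Fin (n + 2))).finsuppAntidiag d, α 0 + α l < d →
    ∃ V : Derivation ℂ (JR n k) (JR n k), IsFld n d k V ∧ (∀ v, V (X (Sum.inr v)) = 0) ∧
      V (X (Sum.inl α)) = PowerSeries.coeff 1 (uy n k l) ^ (2 * k) ∧
      ∀ β, β ≠ α → V (X (Sum.inl β)) ≠ 0 →
        β ∈ (Finset.univ : Finset (Fin (n + 2))).finsuppAntidiag d ∧ α 0 + α l < β 0 + β l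

/-- statement of `fld3` for given data -/
def Fld3 (n d k : ℕ) (l : Fin (n + 2)) : Prop :=
  ∀ α ∈ (Finset.univ : Finset (Fin (n + 2))).finsuppAntidiag d, α 0 + α l = d → k < α l →
    ∃ V : Derivation ℂ (JR n k) (JR n k), IsFld n d k V ∧ (∀ v, V (X (Sum.inr v)) = 0) ∧
      V (X (Sum.inl α)) = 1 ∧
      ∀ β, β ≠ α → V (X (Sum.inl β)) ≠ 0 → β 0 + β l = d ∧
        β ∈ (Finset.univ : Finset (Fin (n + 2))).finsuppAntidiag d ∧ β l < α l

/-- the exponents with `α 0 + α l = d` -/
theorem eq_br {d : ℕ} {l : Fin (n + 2)} (hl : l ≠ 0) {α : Fin (n + 2) →₀ ℕ}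
    (hα : α ∈ (Finset.univ : Finset (Fin (n + 2))).finsuppAntidiag d) (h : α 0 + α l = d) :
    α = br n d l (α l) := by
  classical
  rw [Finset.mem_finsuppAntidiag] at hα
  have h1 : ∑ i, α i = d := hα.1
  have h2 : ∀ i, i ≠ 0 → i ≠ l → α i = 0 := by
    intro i hi hil
    have h3 : ∑ i ∈ ({0, l, i} : Finset (Fin (n + 2))), α i ≤ d := by
      rw [← h1]
      exact Finset.sum_le_sum_of_subset (Finset.subset_univ _)
    rw [Finset.sum_insert (by simp [hl.symm, hi.symm]), Finset.sum_insert (by simp [hil.symm]),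
      Finset.sum_singleton] at h3
    omega
  ext i
  unfold br
  rw [Finsupp.add_apply, Finsupp.single_apply, Finsupp.single_apply]
  by_cases hi : i = 0
  · subst hi
    rw [if_pos rfl, if_neg hl]
    omega
  · by_cases hil : i = l
    · subst hil
      rw [if_neg (Ne.symm hi), if_pos rfl, zero_add]
    · rw [if_neg (Ne.symm hi), if_neg (Ne.symm hil), h2 i hi hil, add_zero]

theorem gd_br {d : ℕ} {l : Fin (n + 2)} (hl : l ≠ 0) (h3 : Fld3 n d k l)
    (a : (Fin (n + 2) →₀ ℕ) → R) (y : Fin (n + 2) → PowerSeries R) :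
    ∀ (m : ℕ) (α : Fin (n + 2) →₀ ℕ), α l = m →
      α ∈ (Finset.univ : Finset (Fin (n + 2))).finsuppAntidiag d → α 0 + α l = d →
      Gd d k l a y (open scoped Classical in Pi.single α 1) := by
  classical
  intro m
  induction m using Nat.strong_induction_on with
  | _ m ih =>
    intro α hm hα h
    by_cases hkm : k < α l
    · obtain ⟨V, hV, hv, h4, h5⟩ := h3 α hα h hkm
      refine Gd.elim V hV hv α 0 (by rw [h4, map_one, pow_zero])
        ((Finset.univ : Finset (Fin (n + 2))).finsuppAntidiag d) ?_ ?_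
      · intro β hβ hβt
        by_contra hc
        exact hβt (h5 β hβ hc).2.1
      · intro β _ hβ hc
        obtain ⟨h6, h7, h8⟩ := h5 β hβ hc
        exact ih (β l) (by omega) β rfl h7 h6
    · refine ⟨0, fun r => if (r : ℕ) = α l then 1 else 0, ?_⟩
      have h6 : (∑ r : Fin (k + 1), (if (r : ℕ) = α l then (1 : R) else 0) •
          (Pi.single (br n d l r) 1 : (Fin (n + 2) →₀ ℕ) → R)) = Pi.single α 1 := by
        rw [Finset.sum_eq_single (⟨α l, by omega⟩ : Fin (k + 1))]
        · rw [if_pos rfl, one_smul]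
          congr 1
          exact (eq_br hl hα h).symm
        · intro r _ hr
          rw [if_neg, zero_smul]
          intro h7
          exact hr (Fin.ext h7)
        · intro h7
          exact absurd (Finset.mem_univ _) h7
      rw [pow_zero, one_smul, h6, sub_self]
      exact Submodule.zero_mem _

theorem gd_single {d : ℕ} (hk : 1 ≤ k) {l : Fin (n + 2)} (hl : l ≠ 0) (h2 : Fld2 n d k l)
    (h3 : Fld3 n d k l) (a : (Fin (n + 2) →₀ ℕ) → R) (y : Fin (n + 2) → PowerSeries R) :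
    ∀ (m : ℕ) (α : Fin (n + 2) →₀ ℕ), d - (α 0 + α l) = m →
      α ∈ (Finset.univ : Finset (Fin (n + 2))).finsuppAntidiag d →
      Gd d k l a y (open scoped Classical in Pi.single α 1) := by
  classical
  intro m
  induction m using Nat.strong_induction_on with
  | _ m ih =>
    intro α hm hα
    have hle : α 0 + α l ≤ d := by
      have h1 : ∑ i, α i = d := (Finset.mem_finsuppAntidiag.1 hα).1
      rw [← h1]
      calc α 0 + α l = ∑ i ∈ ({0, l} : Finset (Fin (n + 2))), α i := by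
            rw [Finset.sum_pair hl.symm]
        _ ≤ _ := Finset.sum_le_sum_of_subset (Finset.subset_univ _)
    rcases hle.lt_or_eq with hlt | heq
    · obtain ⟨V, hV, hv, h4, h5⟩ := h2 α hα hlt
      refine Gd.elim V hV hv α (2 * k) ?_
        ((Finset.univ : Finset (Fin (n + 2))).finsuppAntidiag d) ?_ ?_
      · rw [h4, map_pow, coeff_uy_of_le l hk, pt_inr]
      · intro β hβ hβt
        by_contra hc
        exact hβt (h5 β hβ hc).1
      · intro β _ hβ hc
        obtain ⟨h6, h7⟩ := h5 β hβ hc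
        exact ih (d - (β 0 + β l)) (by omega) β rfl h6
    · exact gd_br hl h3 a y (α l) α rfl hα heq

/-- the equations, as linear functions of the coefficients -/
noncomputable def TT (d s : ℕ) (y : Fin (n + 2) → PowerSeries R) : ((Fin (n + 2) →₀ ℕ) → R) →ₗ[R] R where
  toFun g := PowerSeries.coeff s (aeval y (gen n d g))
  map_add' g g' := by
    rw [aeval_gen, aeval_gen, aeval_gen, ← map_add, ← Finset.sum_add_distrib]
    congr 1
    refine Finset.sum_congr rfl fun α _ => ?_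
    rw [Pi.add_apply, map_add, add_mul]
  map_smul' c g := by
    rw [aeval_gen, aeval_gen, map_sum, map_sum, RingHom.id_apply, smul_eq_mul, Finset.mul_sum]
    refine Finset.sum_congr rfl fun α _ => ?_
    rw [Pi.smul_apply, PowerSeries.coeff_C_mul, PowerSeries.coeff_C_mul, smul_eq_mul, mul_assoc]

theorem TT_VM {d s : ℕ} (hs : s ≤ k) (a : (Fin (n + 2) →₀ ℕ) → R) (y : Fin (n + 2) → PowerSeries R)
    (hy : y 0 = 1) {g : (Fin (n + 2) →₀ ℕ) → R} (hg : g ∈ VM n d k a y) : TT d s y g = 0 := by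
  unfold VM at hg
  have h1 : Submodule.span R {g | ∃ V : Derivation ℂ (JR n k) (JR n k), IsFld n d k V ∧
      (∀ v, V (X (Sum.inr v)) = 0) ∧ g = fun α => pt a y (V (X (Sum.inl α)))} ≤
      LinearMap.ker (TT d s y) := by
    rw [Submodule.span_le]
    rintro g ⟨V, hV, hv, rfl⟩
    rw [SetLike.mem_coe, LinearMap.mem_ker]
    change PowerSeries.coeff s (aeval y (gen n d _)) = 0
    rw [← pt_vert d hs a y V hv]
    exact hV.kill s hs R a y hy
  exact h1 hg

omit [Algebra ℂ R] in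
theorem TT_br {d s r : ℕ} (hr : r ≤ d) (l : Fin (n + 2))
    (y : Fin (n + 2) → PowerSeries R) (hy : y 0 = 1) :
    TT d s y (open scoped Classical in Pi.single (br n d l r) 1) = PowerSeries.coeff s (y l ^ r) := by
  classical
  change PowerSeries.coeff s (aeval y (gen n d _)) = _
  have hmem : br n d l r ∈ (Finset.univ : Finset (Fin (n + 2))).finsuppAntidiag d := by
    rw [Finset.mem_finsuppAntidiag]
    refine ⟨?_, Finset.subset_univ _⟩
    change ∑ i, (br n d l r) i = d
    unfold br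
    simp only [Finsupp.add_apply, Finset.sum_add_distrib]
    rw [Finset.sum_eq_single (0 : Fin (n + 2)), Finset.sum_eq_single l]
    · simp; omega
    · intro i _ hi; exact Finsupp.single_eq_of_ne hi
    · intro h; exact absurd (Finset.mem_univ _) h
    · intro i _ hi; exact Finsupp.single_eq_of_ne hi
    · intro h; exact absurd (Finset.mem_univ _) h
  rw [aeval_gen, Finset.sum_eq_single (br n d l r)]
  · rw [Pi.single_eq_same, map_one, one_mul]
    congr 1
    unfold br
    simp only [Finsupp.add_apply, pow_add, Finset.prod_mul_distrib]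
    rw [Finset.prod_eq_single (0 : Fin (n + 2)), Finset.prod_eq_single l]
    · rw [hy, one_pow, one_mul, Finsupp.single_eq_same]
    · intro i _ hi; rw [Finsupp.single_eq_of_ne hi, pow_zero]
    · intro h; exact absurd (Finset.mem_univ _) h
    · intro i _ hi; rw [Finsupp.single_eq_of_ne hi, pow_zero]
    · intro h; exact absurd (Finset.mem_univ _) h
  · intro β _ hβ
    rw [Pi.single_eq_of_ne hβ, map_zero, zero_mul]
  · intro h
    exact absurd hmem h

/-- VSP, from the fields (ii), (iii) and the interpolation. -/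
theorem vsp_of (n d k : ℕ) (hk : 1 ≤ k) (hd : k + 1 ≤ d) (l : Fin (n + 2)) (hl : l ≠ 0)
    (h2 : Fld2 n d k l) (h3 : Fld3 n d k l)
    (R : Type) [CommRing R] [Algebra ℂ R] (a : (Fin (n + 2) →₀ ℕ) → R) (y : Fin (n + 2) → PowerSeries R)
    (hI : ∃ E : ℕ → ℕ → R, ∀ s ≤ k, ∀ j ≤ k,
          PowerSeries.coeff j (∑ r ∈ Finset.range (k + 1), PowerSeries.C (E s r) * y l ^ r) =
            if j = s then PowerSeries.coeff 1 (y l) ^ (2 * k) else 0)
    (hy : y 0 = 1) (g : (Fin (n + 2) →₀ ℕ) → R)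
    (hg : ∀ α ∉ (Finset.univ : Finset (Fin (n + 2))).finsuppAntidiag d, g α = 0)
    (hT : ∀ s ≤ k, PowerSeries.coeff s (aeval y (gen n d g)) = 0) :
    ∃ (N : ℕ) (w : List (R × Derivation ℂ (JR n k) (JR n k))),
      (∀ p ∈ w, IsFld n d k p.2 ∧ ∀ v, p.2 (X (Sum.inr v)) = 0) ∧
      ∀ α, PowerSeries.coeff 1 (y l) ^ N * g α = (w.map fun p => p.1 * pt a y (p.2 (X (Sum.inl α)))).sum := by
  classical
  -- `g` is good
  have hG : Gd d k l a y g := by
    have h4 : g = ∑ α ∈ (Finset.univ : Finset (Fin (n + 2))).finsuppAntidiag d,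
        g α • (Pi.single α 1 : (Fin (n + 2) →₀ ℕ) → R) := by
      funext γ
      rw [Finset.sum_apply]
      simp only [Pi.smul_apply, Pi.single_apply, smul_eq_mul, mul_ite, mul_one, mul_zero]
      rw [Finset.sum_ite_eq]
      split_ifs with h
      · rfl
      · exact hg γ h
    rw [h4]
    refine Gd.sum _ fun α hα => Gd.smul ?_ _
    have h5 := gd_single hk hl h2 h3 a y _ α rfl hα
    convert h5 using 3
  obtain ⟨N, c, hc⟩ := hG
  -- the remaining coefficients
  have h5 : ∀ s ≤ k, ∑ r : Fin (k + 1), c r * PowerSeries.coeff s (y l ^ (r : ℕ)) = 0 := by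
    intro s hs
    have h6 := TT_VM hs a y hy hc
    rw [map_sub, map_smul, map_sum] at h6
    have h7 : TT d s y g = 0 := hT s hs
    rw [h7, smul_zero, zero_sub, neg_eq_zero] at h6
    rw [← h6]
    refine Finset.sum_congr rfl fun r _ => ?_
    rw [map_smul, smul_eq_mul]
    congr 1
    have h8 := TT_br (s := s) (show (r : ℕ) ≤ d by omega) l y hy
    rw [← h8]
  obtain ⟨E, hE⟩ := hI
  let Y : Matrix (Fin (k + 1)) (Fin (k + 1)) R := Matrix.of fun r s => PowerSeries.coeff (s : ℕ) (y l ^ (r : ℕ))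
  let Em : Matrix (Fin (k + 1)) (Fin (k + 1)) R := Matrix.of fun s r => E s r
  have h9 : Em * Y = (PowerSeries.coeff 1 (y l) ^ (2 * k)) • (1 : Matrix (Fin (k + 1)) (Fin (k + 1)) R) := by
    ext s j
    rw [Matrix.mul_apply, Matrix.smul_apply, Matrix.one_apply]
    have h10 := hE s (by omega) j (by omega)
    rw [map_sum, Finset.sum_range] at h10
    simp only [PowerSeries.coeff_C_mul] at h10
    change ∑ r : Fin (k + 1), E s r * PowerSeries.coeff (j : ℕ) (y l ^ (r : ℕ)) = _
    rw [h10]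
    by_cases h : s = j
    · subst h
      simp
    · rw [if_neg h, if_neg (fun h' => h (Fin.ext h'.symm)), smul_zero]
  have h11 : Em.det * Y.det = (PowerSeries.coeff 1 (y l) ^ (2 * k)) ^ (k + 1) := by
    rw [← Matrix.det_mul, h9, Matrix.det_smul, Matrix.det_one, mul_one, Fintype.card_fin]
  have h12 : Matrix.vecMul c Y = 0 := by
    funext s
    rw [Matrix.vecMul, Pi.zero_apply]
    exact h5 s (by omega)
  have h13 : ∀ r, Y.det * c r = 0 := by
    intro r
    have h14 : Matrix.vecMul c (Y * Y.adjugate) = 0 := by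
      rw [← Matrix.vecMul_vecMul, h12, Matrix.zero_vecMul]
    rw [Matrix.mul_adjugate, Matrix.vecMul_smul, Matrix.vecMul_one] at h14
    exact congrFun h14 r
  have h14 : ∀ r, (PowerSeries.coeff 1 (y l) ^ (2 * k)) ^ (k + 1) * c r = 0 := by
    intro r
    rw [← h11, mul_assoc, h13, mul_zero]
  have h15 : PowerSeries.coeff 1 (y l) ^ (2 * k * (k + 1) + N) • g ∈ VM n d k a y := by
    have h16 := (VM n d k a y).smul_mem ((PowerSeries.coeff 1 (y l) ^ (2 * k)) ^ (k + 1)) hc
    convert h16 using 1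
    rw [smul_sub, Finset.smul_sum]
    have h17 : ∀ r : Fin (k + 1), (PowerSeries.coeff 1 (y l) ^ (2 * k)) ^ (k + 1) •
        c r • (Pi.single (br n d l r) 1 : (Fin (n + 2) →₀ ℕ) → R) = 0 := by
      intro r
      rw [smul_smul, h14, zero_smul]
    rw [Finset.sum_eq_zero (fun r _ => ?_), sub_zero, smul_smul, ← pow_mul, ← pow_add]
    convert h17 r using 4
  obtain ⟨w, h18, h19⟩ := exists_list a y h15
  refine ⟨2 * k * (k + 1) + N, w, h18, fun α => ?_⟩
  rw [← h19 α, Pi.smul_apply, smul_eq_mul]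

end vsp

end Pool.Agent.H57.UGB
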