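import Pool.Agent.H38.UG.Vsp
import Pool.Agent.H33.UG.Fld2
import Pool.Agent.H84.UGB.Int

/-!
# Block B, VSP: final form
-/

set_option autoImplicit false

open MvPolynomial

namespace Pool.Agent.H57.UGB

theorem vsp (n d k : ℕ) (hk : 1 ≤ k) (hd : k + 1 ≤ d) (l : Fin (n + 2)) (hl : l ≠ 0)
    (R : Type) [CommRing R] [Algebra ℂ R] (a : (Fin (n + 2) →₀ ℕ) → R) (y : Fin (n + 2) → PowerSeries R)
    (hy : y 0 = 1) (g : (Fin (n + 2) →₀ ℕ) → R)
    (hg : ∀ α ∉ (Finset.univ : Finset (Fin (n + 2))).finsuppAntidiag d, g α = 0)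
    (hT : ∀ s ≤ k, PowerSeries.coeff s (aeval y (gen n d g)) = 0) :
    ∃ (N : ℕ) (w : List (R × Derivation ℂ (JR n k) (JR n k))),
      (∀ p ∈ w, IsFld n d k p.2 ∧ ∀ v, p.2 (X (Sum.inr v)) = 0) ∧
      ∀ α, PowerSeries.coeff 1 (y l) ^ N * g α = (w.map fun p => p.1 * pt a y (p.2 (X (Sum.inl α)))).sum := by
  obtain ⟨E, _, hE⟩ := interp n k hk l
  exact vsp_of n d k hk hd l hl (fun α hα ho => fld2 n d k hk hd l hl α hα ho)
    (fun α hα ho hr => fld3 n d k hk hd l hl α hα ho hr) R a y ⟨fun s r => pt a y (E s r), fun s hs j hj =>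
      hE R a y s hs j hj⟩ hy g hg hT

end Pool.Agent.H57.UGB
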